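import Pool.Agent.Y17.G.Defs

set_option autoImplicit false

/-!
# Flips of the representations of `3 pr A`, `9 pr A` by `b² + 14 y²`

Job 5205 (poster helper17): `t_FLIP`, `t_NE`. Several lemmas are adapted from `Pool/Agent/Z125/Rep.lean`
and `Pool/Agent/Z421/SOL2.lean`.
-/

namespace Pool.Agent.Y43.Z17G

open Finset
open Pool.Agent.Z700 (pr)
open Pool.Agent.Y17.N (Sp)
open Pool.Agent.Y17.G

/-- the reduced forms of determinant `14` -/
def Rf (A B C : ℤ) : Prop := (A = 1 ∧ B = 0 ∧ C = 14) ∨ (A = 2 ∧ B = 0 ∧ C = 7) ∨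
  (A = 3 ∧ B = 1 ∧ C = 5)

/-- `(a, b, c)` is equivalent to a reduced form -/
def Eqf (a b c : ℤ) : Prop := ∃ A B C x y z w : ℤ, Rf A B C ∧
  a = A * x ^ 2 + 2 * B * x * y + C * y ^ 2 ∧ c = A * z ^ 2 + 2 * B * z * w + C * w ^ 2 ∧
  b = A * x * z + B * (x * w + y * z) + C * y * w

theorem Eqf.swap {a b c : ℤ} (h : Eqf a b c) : Eqf c b a := by
  obtain ⟨A, B, C, x, y, z, w, h1, h2, h3, h4⟩ := h
  exact ⟨A, B, C, z, w, x, y, h1, h3, h2, by rw [h4]; ring⟩

theorem Eqf.shift {a b c : ℤ} (s : ℤ) (hs : s ^ 2 = 1) (h : Eqf a (b - s * a) (c - 2 * s * b + a)) :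
    Eqf a b c := by
  obtain ⟨A, B, C, x, y, z, w, h1, h2, h3, h4⟩ := h
  refine ⟨A, B, C, x, y, z + s * x, w + s * y, h1, h2, ?_, ?_⟩
  · linear_combination h3 + 2 * s * h4 + s ^ 2 * h2 + a * hs
  · linear_combination h4 + s * h2

theorem red56 : ∀ (n : ℕ) (a b c : ℤ), a + c ≤ n → 0 < a → 0 < c → a * c - b ^ 2 = 14 →
    Eqf a b c := by
  intro n
  induction n with
  | zero => intro a b c h ha hc _; exfalso; push_cast at h; omega
  | succ n ih =>
    intro a b c hn ha hc hdet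
    push_cast at hn
    -- the reduction steps
    by_cases h1 : a < 2 * |b|
    · rcases abs_cases b with ⟨hb, hb0⟩ | ⟨hb, hb0⟩
      · rw [hb] at h1
        refine Eqf.shift 1 (by norm_num) (ih _ _ _ (by linarith) ha ?_ ?_)
        · nlinarith [sq_nonneg (b - 1 * a)]
        · linear_combination hdet
      · rw [hb] at h1
        refine Eqf.shift (-1) (by norm_num) (ih _ _ _ (by linarith) ha ?_ ?_)
        · nlinarith [sq_nonneg (b - (-1) * a)]
        · linear_combination hdet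
    by_cases h2 : c < 2 * |b|
    · rcases abs_cases b with ⟨hb, hb0⟩ | ⟨hb, hb0⟩
      · rw [hb] at h2
        refine Eqf.swap (Eqf.shift 1 (by norm_num) (ih _ _ _ (by linarith) hc ?_ ?_))
        · nlinarith [sq_nonneg (b - 1 * c)]
        · linear_combination hdet
      · rw [hb] at h2
        refine Eqf.swap (Eqf.shift (-1) (by norm_num) (ih _ _ _ (by linarith) hc ?_ ?_))
        · nlinarith [sq_nonneg (b - (-1) * c)]
        · linear_combination hdet
    push Not at h1 h2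
    have hb2 : b ^ 2 = |b| ^ 2 := (sq_abs b).symm
    have hb3 : |b| ≤ 2 := by
      by_contra h
      push Not at h
      nlinarith
    have hba : -2 ≤ b ∧ b ≤ 2 := abs_le.1 hb3
    have hac : a * c ≤ 18 := by nlinarith
    have ha18 : a ≤ 18 := by nlinarith
    obtain ⟨hb4, hb5⟩ := hba
    have hh1 : 2 * b ≤ a ∧ -(2 * b) ≤ a := ⟨by linarith [le_abs_self b], by linarith [neg_abs_le b]⟩
    have hh2 : 2 * b ≤ c ∧ -(2 * b) ≤ c := ⟨by linarith [le_abs_self b], by linarith [neg_abs_le b]⟩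
    clear h1 h2 hb3 hb2 ih
    have hc18 : c ≤ 18 := by nlinarith
    have hdet' : a * c = 14 + b ^ 2 := by linarith
    clear hdet
    interval_cases b <;> norm_num at hdet' <;> norm_num at hh1 hh2
    · exfalso
      interval_cases a <;> omega
    · have h5 : (a = 3 ∧ c = 5) ∨ (a = 5 ∧ c = 3) := by
        interval_cases a <;> omega
      rcases h5 with ⟨rfl, rfl⟩ | ⟨rfl, rfl⟩
      · exact ⟨3, 1, 5, 1, 0, 0, -1, Or.inr (Or.inr ⟨rfl, rfl, rfl⟩), by norm_num, by norm_num,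
            by norm_num⟩
      · exact ⟨3, 1, 5, 0, 1, -1, 0, Or.inr (Or.inr ⟨rfl, rfl, rfl⟩), by norm_num, by norm_num,
            by norm_num⟩
    · have h5 : (a = 1 ∧ c = 14) ∨ (a = 14 ∧ c = 1) ∨ (a = 2 ∧ c = 7) ∨ (a = 7 ∧ c = 2) := by
        interval_cases a <;> omega
      rcases h5 with ⟨rfl, rfl⟩ | ⟨rfl, rfl⟩ | ⟨rfl, rfl⟩ | ⟨rfl, rfl⟩
      · exact ⟨1, 0, 14, 1, 0, 0, 1, Or.inl ⟨rfl, rfl, rfl⟩, by norm_num, by norm_num,
            by norm_num⟩
      · exact ⟨1, 0, 14, 0, 1, 1, 0, Or.inl ⟨rfl, rfl, rfl⟩, by norm_num, by norm_num,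
            by norm_num⟩
      · exact ⟨2, 0, 7, 1, 0, 0, 1, Or.inr (Or.inl ⟨rfl, rfl, rfl⟩), by norm_num, by norm_num,
            by norm_num⟩
      · exact ⟨2, 0, 7, 0, 1, 1, 0, Or.inr (Or.inl ⟨rfl, rfl, rfl⟩), by norm_num, by norm_num,
            by norm_num⟩
    · have h5 : (a = 3 ∧ c = 5) ∨ (a = 5 ∧ c = 3) := by
        interval_cases a <;> omega
      rcases h5 with ⟨rfl, rfl⟩ | ⟨rfl, rfl⟩
      · exact ⟨3, 1, 5, 1, 0, 0, 1, Or.inr (Or.inr ⟨rfl, rfl, rfl⟩), by norm_num, by norm_num,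
            by norm_num⟩
      · exact ⟨3, 1, 5, 0, 1, 1, 0, Or.inr (Or.inr ⟨rfl, rfl, rfl⟩), by norm_num, by norm_num,
            by norm_num⟩
    · exfalso
      interval_cases a <;> omega

theorem sqm7 (x : ℤ) : x ^ 2 % 7 = 0 ∨ x ^ 2 % 7 = 1 ∨ x ^ 2 % 7 = 2 ∨ x ^ 2 % 7 = 4 := by
  have h : x % 7 = 0 ∨ x % 7 = 1 ∨ x % 7 = 2 ∨ x % 7 = 3 ∨ x % 7 = 4 ∨ x % 7 = 5 ∨ x % 7 = 6 := by
    omega
  rcases h with h | h | h | h | h | h | h <;> simp [pow_two, Int.mul_emod, h]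

/-- `-14` is a square modulo the primes of the family -/
theorem sq14 {p : ℕ} (hF : Sp p ∨ In p) : ∃ t : ℤ, (p : ℤ) ∣ t ^ 2 + 14 := by
  have hp : p.Prime := by rcases hF with h | h <;> exact h.1
  have : Fact p.Prime := ⟨hp⟩
  have h8 : p % 8 = 1 ∨ p % 8 = 3 ∨ p % 8 = 5 := by
    rcases hF with h | h
    · exact Or.inl h.2.1
    · exact Or.inr h.2.1
  have hodd : Odd p := Nat.odd_iff.2 (by omega)
  have h2 : jacobiSym (p : ℤ) 7 = jacobiSym ((p % 7 : ℕ) : ℤ) 7 := by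
    rw [jacobiSym.mod_left (p : ℤ) 7]
    push_cast
    rfl
  have e3 : jacobiSym (-14) p = 1 := by
    have e : (-14 : ℤ) = -1 * 2 * ((7 : ℕ) : ℤ) := by norm_num
    rw [e, jacobiSym.mul_left, jacobiSym.mul_left, jacobiSym.at_neg_one hodd,
      jacobiSym.at_two hodd, ZMod.χ₈_nat_eq_if_mod_eight]
    rcases hF with h | h
    · have h81 := h.2.1
      have h1 : jacobiSym ((7 : ℕ) : ℤ) p = jacobiSym (p : ℤ) 7 :=
        jacobiSym.quadratic_reciprocity_one_mod_four' (by decide) (by omega)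
      have e2 : ¬ p % 2 = 0 := by omega
      rw [ZMod.χ₄_nat_one_mod_four (by omega), if_neg e2, if_pos (Or.inl h81), h1, h2]
      rcases h.2.2 with h | h | h <;> rw [h] <;> norm_num [jacobiSym]
    · rcases h.2.1 with h83 | h85
      · have h1 : jacobiSym ((7 : ℕ) : ℤ) p = -jacobiSym (p : ℤ) 7 :=
          jacobiSym.quadratic_reciprocity_three_mod_four (by norm_num) (by omega)
        have e2 : ¬ p % 2 = 0 := by omega
        have e3 : ¬ (p % 8 = 1 ∨ p % 8 = 7) := by omega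
        rw [ZMod.χ₄_nat_three_mod_four (by omega), if_neg e2, if_neg e3, h1, h2]
        rcases h.2.2 with h | h | h <;> rw [h] <;> norm_num [jacobiSym]
      · have h1 : jacobiSym ((7 : ℕ) : ℤ) p = jacobiSym (p : ℤ) 7 :=
          jacobiSym.quadratic_reciprocity_one_mod_four' (by decide) (by omega)
        have e2 : ¬ p % 2 = 0 := by omega
        have e3 : ¬ (p % 8 = 1 ∨ p % 8 = 7) := by omega
        rw [ZMod.χ₄_nat_one_mod_four (by omega), if_neg e2, if_neg e3, h1, h2]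
        rcases h.2.2 with h | h | h <;> rw [h] <;> norm_num [jacobiSym]
  obtain ⟨s, hs⟩ := ZMod.isSquare_of_jacobiSym_eq_one e3
  refine ⟨(s.val : ℤ), ?_⟩
  rw [← ZMod.intCast_zmod_eq_zero_iff_dvd]
  push_cast
  rw [ZMod.natCast_zmod_val]
  push_cast at hs
  linear_combination -hs

theorem rep_cases {p : ℕ} (hF : Sp p ∨ In p) : (∃ g f : ℤ, (p : ℤ) = g ^ 2 + 14 * f ^ 2) ∨
    (∃ h k : ℤ, (p : ℤ) = 2 * h ^ 2 + 7 * k ^ 2) ∨ ∃ u v : ℤ, 3 * (p : ℤ) = u ^ 2 + 14 * v ^ 2 := by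
  obtain ⟨t, c, hc⟩ := sq14 hF
  have hp : p.Prime := by rcases hF with h | h <;> exact h.1
  have hp0 : (0 : ℤ) < p := by exact_mod_cast hp.pos
  have hc0 : 0 < c := by
    by_contra h
    push Not at h
    nlinarith [sq_nonneg t]
  obtain ⟨A, B, C, x, y, z, w, h1, h2, h3, h4⟩ := red56 (p + c.toNat) p t c (by
    push_cast
    rw [Int.toNat_of_nonneg hc0.le]) hp0 hc0 (by linear_combination -hc)
  rcases h1 with ⟨rfl, rfl, rfl⟩ | ⟨rfl, rfl, rfl⟩ | ⟨rfl, rfl, rfl⟩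
  · exact Or.inl ⟨x, y, by linear_combination h2⟩
  · exact Or.inr (Or.inl ⟨x, y, by linear_combination h2⟩)
  · exact Or.inr (Or.inr ⟨3 * x + y, y, by linear_combination 3 * h2⟩)

theorem sp_rep {p : ℕ} (hF : Sp p) : (∃ g f : ℤ, (p : ℤ) = g ^ 2 + 14 * f ^ 2) ∨
    (∃ h k : ℤ, (p : ℤ) = 2 * h ^ 2 + 7 * k ^ 2) := by
  rcases rep_cases (Or.inl hF) with h | h | ⟨u, v, h⟩
  · exact Or.inl h
  · exact Or.inr h
  · exfalso
    have h7 := hF.2.2
    have := sqm7 u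
    omega

theorem nr_rep {p : ℕ} (hF : In p) (hp3 : p ≠ 3) : ∃ v s : ℤ, 3 * (p : ℤ) = (v + 3 * s) ^ 2 + 14 * v ^ 2 ∧
    ¬ (3 : ℤ) ∣ v := by
  have h7 := hF.2.2
  obtain ⟨u, v, h⟩ : ∃ u v : ℤ, 3 * (p : ℤ) = u ^ 2 + 14 * v ^ 2 := by
    rcases rep_cases (Or.inr hF) with ⟨g, f, h⟩ | ⟨h, k, h'⟩ | h
    · exfalso
      have := sqm7 g
      omega
    · exfalso
      have := sqm7 h
      omega
    · exact h
  have hv : ¬ (3 : ℤ) ∣ v := by
    rintro ⟨k, rfl⟩
    have h3 : (3 : ℤ) ∣ u ^ 2 := ⟨p - 42 * k ^ 2, by linear_combination -h⟩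
    obtain ⟨l, rfl⟩ := Int.prime_three.dvd_of_dvd_pow h3
    have h4 : (3 : ℤ) ∣ p := ⟨l ^ 2 + 14 * k ^ 2, by linarith⟩
    have h5 : 3 ∣ p := by exact_mod_cast h4
    have h6 := (Nat.prime_dvd_prime_iff_eq Nat.prime_three hF.1).1 h5
    exact hp3 h6.symm
  have h3 : (3 : ℤ) ∣ (u - v) * (u + v) := ⟨p - 5 * v ^ 2, by linear_combination -h⟩
  rcases Int.prime_three.dvd_or_dvd h3 with ⟨s, hs⟩ | ⟨s, hs⟩
  · refine ⟨v, s, ?_, hv⟩
    have : v + 3 * s = u := by linarith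
    rw [this]; exact h
  · refine ⟨-v, s, ?_, fun h' => hv ((dvd_neg).1 h')⟩
    have : -v + 3 * s = u := by linarith
    rw [this, h]; ring

/-- products of two inert primes -/
theorem nn_rep {p p' : ℕ} (hp : In p) (hp3 : p ≠ 3) (hp' : In p') (hp3' : p' ≠ 3) :
    (∃ g f : ℤ, (p : ℤ) * p' = g ^ 2 + 14 * f ^ 2) ∧
    (∃ h k : ℤ, (p : ℤ) * p' = 2 * h ^ 2 + 7 * k ^ 2) ∧
    ∃ X Y : ℤ, 9 * ((p : ℤ) * p') = X ^ 2 + 14 * Y ^ 2 ∧ ¬ (3 : ℤ) ∣ X := by
  obtain ⟨v, s, h1, h2⟩ := nr_rep hp hp3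
  obtain ⟨v', s', h1', h2'⟩ := nr_rep hp' hp3'
  obtain ⟨X, hX⟩ : ∃ X, X = (v + 3 * s) * (v' + 3 * s') - 14 * v * v' := ⟨_, rfl⟩
  obtain ⟨Y, hY⟩ : ∃ Y, Y = (v + 3 * s) * v' + (v' + 3 * s') * v := ⟨_, rfl⟩
  have hXY : 9 * ((p : ℤ) * p') = X ^ 2 + 14 * Y ^ 2 := by
    rw [hX, hY]
    linear_combination (3 * (p' : ℤ)) * h1 + ((v + 3 * s) ^ 2 + 14 * v ^ 2) * h1'
  have hX3 : ¬ (3 : ℤ) ∣ X := by
    intro h
    have h3 : (3 : ℤ) ∣ v * v' := by
      obtain ⟨k, hk⟩ := h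
      refine ⟨v * s' + s * v' + 3 * s * s' - k - 4 * v * v', ?_⟩
      rw [hX] at hk
      linarith
    rcases Int.prime_three.dvd_or_dvd h3 with h4 | h4
    · exact h2 h4
    · exact h2' h4
  refine ⟨⟨5 * v * v' + v * s' + s * v' + 3 * s * s', s' * v - s * v', ?_⟩, ?_, X, Y, hXY, hX3⟩
  · have e : 9 * ((p : ℤ) * p') = 9 * ((5 * v * v' + v * s' + s * v' + 3 * s * s') ^ 2 +
        14 * (s' * v - s * v') ^ 2) := by
      linear_combination (3 * (p' : ℤ)) * h1 + ((v + 3 * s) ^ 2 + 14 * v ^ 2) * h1'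
    exact mul_left_cancel₀ (by norm_num) e
  · have h9 : (9 : ℤ) ∣ (X - 2 * Y) * (X + 2 * Y) :=
      ⟨(p : ℤ) * p' - 2 * Y ^ 2, by linear_combination -hXY⟩
    have hcase : (9 : ℤ) ∣ X - 2 * Y ∨ (9 : ℤ) ∣ X + 2 * Y := by
      by_cases h3 : (3 : ℤ) ∣ X - 2 * Y
      · have h4 : ¬ (3 : ℤ) ∣ X + 2 * Y := by
          intro h4
          apply hX3
          have : (3 : ℤ) ∣ (X - 2 * Y) + (X + 2 * Y) := dvd_add h3 h4
          have e : (X - 2 * Y) + (X + 2 * Y) = 2 * X := by ring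
          rw [e] at this
          rcases Int.prime_three.dvd_or_dvd this with h | h
          · norm_num at h
          · exact h
        left
        have hc : IsCoprime (9 : ℤ) (X + 2 * Y) := by
          have : IsCoprime (3 : ℤ) (X + 2 * Y) := (Int.prime_three.coprime_iff_not_dvd).2 h4
          have := this.pow_left (m := 2)
          norm_num at this
          exact this
        exact hc.dvd_of_dvd_mul_right h9
      · right
        have hc : IsCoprime (9 : ℤ) (X - 2 * Y) := by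
          have : IsCoprime (3 : ℤ) (X - 2 * Y) := (Int.prime_three.coprime_iff_not_dvd).2 h3
          have := this.pow_left (m := 2)
          norm_num at this
          exact this
        exact hc.dvd_of_dvd_mul_left h9
    rcases hcase with ⟨k, hk⟩ | ⟨k, hk⟩
    · refine ⟨Y + k, k, ?_⟩
      have hx : X = 2 * Y + 9 * k := by linarith
      rw [hx] at hXY
      linarith
    · refine ⟨Y - k, k, ?_⟩
      have hx : X = -2 * Y + 9 * k := by linarith
      rw [hx] at hXY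
      linarith

/-- products of split primes -/
theorem split_rep (S : Finset ℕ) (hS : ∀ p ∈ S, Sp p) :
    (∃ g f : ℤ, (pr S : ℤ) = g ^ 2 + 14 * f ^ 2) ∨
    (∃ h k : ℤ, (pr S : ℤ) = 2 * h ^ 2 + 7 * k ^ 2) := by
  classical
  induction S using Finset.induction_on with
  | empty => left; exact ⟨1, 0, by simp [pr]⟩
  | insert p S hp ih =>
    have h1 : (pr (insert p S) : ℤ) = p * pr S := by
      have : pr (insert p S) = p * pr S := Finset.prod_insert hp
      rw [this]; push_cast; ring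
    rw [h1]
    rcases sp_rep (hS p (mem_insert_self _ _)) with ⟨g, f, h⟩ | ⟨g, f, h⟩ <;>
      rcases ih fun q hq => hS q (mem_insert_of_mem hq) with ⟨g', f', h'⟩ | ⟨g', f', h'⟩
    · exact Or.inl ⟨g * g' - 14 * f * f', g * f' + f * g', by rw [h, h']; ring⟩
    · exact Or.inr ⟨g' * g - 7 * f' * f, 2 * g' * f + f' * g, by rw [h, h']; ring⟩
    · exact Or.inr ⟨g * g' - 7 * f * f', 2 * g * f' + f * g', by rw [h, h']; ring⟩
    · exact Or.inl ⟨2 * g * g' - 7 * f * f', g * f' + f * g', by rw [h, h']; ring⟩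

theorem mod3_sq {x : ℤ} (h : ¬ (3 : ℤ) ∣ x) : x ^ 2 % 3 = 1 := by
  have h1 : x % 3 = 1 ∨ x % 3 = 2 := by omega
  rcases h1 with h1 | h1 <;> simp [pow_two, Int.mul_emod, h1]

/-- The two representations of a product of two primes define different ideals. -/
theorem excl {N g f h k : ℤ} (hN : 0 < N) (h1 : N = g ^ 2 + 14 * f ^ 2)
    (h2 : N = 2 * h ^ 2 + 7 * k ^ 2) (h3 : N ∣ g * k - 2 * h * f) : False := by
  obtain ⟨V, hV⟩ := h3
  have h4 : (2 * g * h + 14 * f * k) ^ 2 + 14 * (g * k - 2 * h * f) ^ 2 = 2 * N ^ 2 := by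
    have : (2 : ℤ) * N ^ 2 = (g ^ 2 + 14 * f ^ 2) * (2 * (2 * h ^ 2 + 7 * k ^ 2)) := by
      rw [← h1, ← h2]; ring
    rw [this]; ring
  rw [hV] at h4
  have h5 : N ^ 2 ∣ (2 * g * h + 14 * f * k) ^ 2 := ⟨2 - 14 * V ^ 2, by linear_combination h4⟩
  obtain ⟨U, hU⟩ := (Int.pow_dvd_pow_iff two_ne_zero).1 h5
  rw [hU] at h4
  have h6 : N ^ 2 * (U ^ 2 + 14 * V ^ 2) = N ^ 2 * 2 := by linear_combination h4
  have h7 : U ^ 2 + 14 * V ^ 2 = 2 := mul_left_cancel₀ (pow_ne_zero 2 hN.ne') h6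
  have h8 : V = 0 := by
    by_contra hV0
    have : 1 ≤ V ^ 2 := by
      have := Int.one_le_abs hV0
      nlinarith [sq_abs V]
    nlinarith [sq_nonneg U]
  rw [h8] at h7
  have h9 : U ^ 2 = 2 := by linarith
  have h10 : U < 2 := by nlinarith
  have h11 : -2 < U := by nlinarith
  interval_cases U <;> omega


section basics

variable {m : ℕ} {A : Finset ℕ}

theorem gd (hA : Cl A) {r : ℕ} (hr : r ∈ A) : r.Prime ∧ r % 2 = 1 ∧ r ≠ 2 ∧ r ≠ 3 ∧ r ≠ 7 := by
  have h3 : r ≠ 3 := fun h => hA.2 (h ▸ hr)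
  have h : r.Prime ∧ (r % 8 = 1 ∨ r % 8 = 3 ∨ r % 8 = 5) := by
    rcases hA.1 r hr with h | h
    · exact ⟨h.1, Or.inl h.2.1⟩
    · exact ⟨h.1, Or.inr h.2.1⟩
  exact ⟨h.1, by omega, by omega, h3, by omega⟩

theorem dvd_pr {A : Finset ℕ} {r : ℕ} (hr : r ∈ A) : (r : ℤ) ∣ (pr A : ℤ) := by
  have : r ∣ pr A := dvd_prod_of_mem (fun x => x) hr
  exact_mod_cast this

theorem dvd_pr_iff (hA : Cl A) {T : Finset ℕ} (hT : T ⊆ A) {r : ℕ} (hr : r ∈ A)
    (h : (r : ℤ) ∣ (pr T : ℤ)) : r ∈ T := by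
  have h1 : r ∣ pr T := by exact_mod_cast h
  rw [pr, (gd hA hr).1.prime.dvd_finsetProd_iff] at h1
  obtain ⟨q, hq, h2⟩ := h1
  rw [(Nat.prime_dvd_prime_iff_eq (gd hA hr).1 (gd hA (hT hq)).1).1 h2]
  exact hq

theorem pr_dvd (hA : Cl A) {T : Finset ℕ} (hT : T ⊆ A) {X : ℤ} (h : ∀ l ∈ T, (l : ℤ) ∣ X) :
    (pr T : ℤ) ∣ X := by
  have e : (pr T : ℤ) = ∏ l ∈ T, (l : ℤ) := by
    unfold pr
    push_cast
    rfl
  rw [e]
  refine Finset.prod_dvd_of_coprime ?_ h
  intro a ha b hb hab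
  exact Nat.isCoprime_iff_coprime.2
    ((Nat.coprime_primes (gd hA (hT ha)).1 (gd hA (hT hb)).1).2 hab)

theorem pr_odd (hA : Cl A) : pr A % 2 = 1 := by
  rw [← Nat.odd_iff]
  unfold pr
  refine Finset.prod_induction _ Odd (fun a b => Odd.mul) odd_one (fun r hr => ?_)
  exact Nat.odd_iff.2 (gd hA hr).2.1

theorem three_pr (hA : Cl A) {T : Finset ℕ} (hT : T ⊆ A) : ¬ (3 : ℤ) ∣ (pr T : ℤ) := by
  intro h
  have h1 : 3 ∣ pr T := by exact_mod_cast h
  rw [pr, Nat.prime_three.prime.dvd_finsetProd_iff] at h1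
  obtain ⟨q, hq, h2⟩ := h1
  exact (gd hA (hT hq)).2.2.2.1
    ((Nat.prime_dvd_prime_iff_eq Nat.prime_three (gd hA (hT hq)).1).1 h2).symm

theorem sq_not (hA : Cl A) (hm : m = 9 ∨ m = 3) {r : ℕ} (hr : r ∈ A) :
    ¬ (r : ℤ) ^ 2 ∣ (m : ℤ) * (pr A : ℤ) := by
  classical
  intro h
  obtain ⟨hp, -, -, h3, -⟩ := gd hA hr
  have h1 : r ^ 2 ∣ m * pr A := by exact_mod_cast h
  have hc : Nat.Coprime (r ^ 2) m := by
    apply Nat.Coprime.pow_left
    have h33 := (Nat.coprime_primes hp Nat.prime_three).2 h3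
    rcases hm with rfl | rfl
    · have : (9 : ℕ) = 3 ^ 2 := by norm_num
      rw [this]
      exact Nat.Coprime.pow_right _ h33
    · exact h33
  have h2 : r ^ 2 ∣ pr A := hc.dvd_of_dvd_mul_left h1
  have h4 : pr A = r * pr (A.erase r) := (mul_prod_erase A (fun x => x) hr).symm
  rw [h4, pow_two] at h2
  have h5 := Nat.dvd_of_mul_dvd_mul_left hp.pos h2
  rw [pr, hp.prime.dvd_finsetProd_iff] at h5
  obtain ⟨q, hq, h6⟩ := h5
  rw [mem_erase] at hq
  exact hq.1 ((Nat.prime_dvd_prime_iff_eq hp (gd hA hq.2).1).1 h6).symm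

theorem nsd (hA : Cl A) (hm : m = 9 ∨ m = 3) {r : ℕ} (hr : r ∈ A) {x z : ℤ}
    (h : (m : ℤ) * (pr A : ℤ) = x ^ 2 + 14 * z ^ 2) : ¬ (r : ℤ) ∣ z := by
  intro hz
  have hpp := Nat.prime_iff_prime_int.1 (gd hA hr).1
  have h9 : (r : ℤ) ∣ (m : ℤ) * (pr A : ℤ) := Dvd.dvd.mul_left (dvd_pr hr) _
  have hx : (r : ℤ) ∣ x := by
    apply hpp.dvd_of_dvd_pow (n := 2)
    have : x ^ 2 = (m : ℤ) * (pr A : ℤ) - 14 * z ^ 2 := by rw [h]; ring
    rw [this]
    exact dvd_sub h9 (Dvd.dvd.mul_left (dvd_pow hz two_ne_zero) _)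
  apply sq_not hA hm hr
  rw [h]
  exact dvd_add (pow_dvd_pow_of_dvd hx 2) (Dvd.dvd.mul_left (pow_dvd_pow_of_dvd hz 2) _)

theorem n14 (hA : Cl A) {r : ℕ} (hr : r ∈ A) : ¬ (r : ℤ) ∣ 14 := by
  intro h
  obtain ⟨a1, -, a2, -, a3⟩ := gd hA hr
  have h1 : r ∣ 2 * 7 := by exact_mod_cast h
  rcases a1.dvd_mul.1 h1 with h2 | h2
  · exact a2 ((Nat.prime_dvd_prime_iff_eq a1 Nat.prime_two).1 h2)
  · exact a3 ((Nat.prime_dvd_prime_iff_eq a1 (by norm_num)).1 h2)

/-- normalization of the sign -/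
theorem mkSol {b y : ℤ} (hm : m = 9 ∨ m = 3) (h : (m : ℤ) * (pr A : ℤ) = b ^ 2 + 14 * y ^ 2)
    (hodd : pr A % 2 = 1) (h3 : ¬ (3 : ℤ) ∣ b) (hby : (3 : ℤ) ∣ y - b) :
    ∃ e : ℤ, e ^ 2 = 1 ∧ (e * b, e * y) ∈ Sol m A := by
  have hb : b % 2 = 1 := by
    by_contra hc
    obtain ⟨k, hk⟩ : ∃ k, b = 2 * k := ⟨b / 2, by omega⟩
    rw [hk] at h
    have : (m : ℤ) * pr A = 2 * (2 * k ^ 2 + 7 * y ^ 2) := by rw [h]; ring
    rcases hm with rfl | rfl
    · push_cast at this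
      omega
    · push_cast at this
      omega
  obtain ⟨e, he, hb4⟩ : ∃ e : ℤ, (e = 1 ∨ e = -1) ∧ (e * b) % 4 = 1 := by
    have : b % 4 = 1 ∨ b % 4 = 3 := by omega
    rcases this with h | h
    · exact ⟨1, Or.inl rfl, by omega⟩
    · exact ⟨-1, Or.inr rfl, by omega⟩
  have he2 : e ^ 2 = 1 := by rcases he with rfl | rfl <;> norm_num
  refine ⟨e, he2, ?_, hb4, ?_, ?_⟩
  · simp only
    linear_combination h - (b ^ 2 + 14 * y ^ 2) * he2
  · intro h5
    apply h3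
    have : b = e * (e * b) := by linear_combination -b * he2
    rw [this]
    exact Dvd.dvd.mul_left h5 _
  · have : e * y - e * b = e * (y - b) := by ring
    simp only
    rw [this]
    exact Dvd.dvd.mul_left hby _

end basics

section flip

variable {m : ℕ} {A : Finset ℕ} (hA : Cl A) (hm : m = 9 ∨ m = 3) {b y : ℤ}
  (hq : (m : ℤ) * (pr A : ℤ) = b ^ 2 + 14 * y ^ 2)

include hA hm hq in
/-- the flip defined by a representation of the product of the primes of `T` -/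
theorem flipT (hb3 : ¬ (3 : ℤ) ∣ b) (hby : (3 : ℤ) ∣ y - b) {T : Finset ℕ} (hT : T ⊆ A)
    {α β g f : ℤ} (hαβ : α * β = 14) (hN : (pr T : ℤ) = α * g ^ 2 + β * f ^ 2)
    (hdiv : ∀ l ∈ T, (l : ℤ) ∣ α * g * y - b * f) :
    ∃ s' ∈ Sol m A, (∀ l ∈ T, (l : ℤ) ∣ b * s'.2 + s'.1 * y) ∧
      ∀ l ∈ A, l ∉ T → (l : ℤ) ∣ b * s'.2 - s'.1 * y := by
  obtain ⟨N, hNdef⟩ : ∃ N : ℤ, (pr T : ℤ) = N := ⟨_, rfl⟩
  have hN3 : ¬ (3 : ℤ) ∣ N := by rw [← hNdef]; exact three_pr hA hT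
  have hN0 : 0 < N := by
    rw [← hNdef]
    have : 0 < pr T := Finset.prod_pos (fun r hr => (gd hA (hT hr)).1.pos)
    exact_mod_cast this
  rw [hNdef] at hN
  obtain ⟨c, hc⟩ : ∃ c, c = α * g ^ 2 - β * f ^ 2 := ⟨_, rfl⟩
  obtain ⟨d, hd⟩ : ∃ d, d = 2 * g * f := ⟨_, rfl⟩
  have hcd : c ^ 2 + 14 * d ^ 2 = N ^ 2 := by
    rw [hN, hc, hd]
    linear_combination (-4 * g ^ 2 * f ^ 2) * hαβ
  have hα : ∀ l ∈ A, ¬ (l : ℤ) ∣ α := fun l hl h =>
    n14 hA hl (by rw [← hαβ]; exact Dvd.dvd.mul_right h _)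
  have hβ : ∀ l ∈ A, ¬ (l : ℤ) ∣ β := fun l hl h =>
    n14 hA hl (by rw [← hαβ]; exact Dvd.dvd.mul_left h _)
  have hdivN : N ∣ y * c - b * d := by
    rw [← hNdef]
    refine pr_dvd hA hT (fun l hl => ?_)
    have hll := Nat.prime_iff_prime_int.1 (gd hA (hT hl)).1
    have h1 : (l : ℤ) ∣ α * (y * (y * c - b * d)) := by
      have e : α * (y * (y * c - b * d)) =
          (α * g * y - b * f) * (α * g * y - b * f) - (pr A : ℤ) * (m * f ^ 2) := by
        rw [hc, hd]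
        linear_combination f ^ 2 * hq - f ^ 2 * y ^ 2 * hαβ
      rw [e]
      exact dvd_sub (Dvd.dvd.mul_right (hdiv l hl) _) (Dvd.dvd.mul_right (dvd_pr (hT hl)) _)
    exact (hll.dvd_or_dvd ((hll.dvd_or_dvd h1).resolve_left (hα l (hT hl)))).resolve_left
      (nsd hA hm (hT hl) hq)
  obtain ⟨y', hy'⟩ := hdivN
  have hid : (b * c + 14 * y * d) ^ 2 + 14 * (y * c - b * d) ^ 2 = m * (pr A : ℤ) * N ^ 2 := by
    rw [hq, ← hcd]; ring
  have h1 : N ^ 2 ∣ (b * c + 14 * y * d) ^ 2 := by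
    refine ⟨m * (pr A : ℤ) - 14 * y' ^ 2, ?_⟩
    rw [hy'] at hid
    linear_combination hid
  obtain ⟨b', hb'⟩ := (Int.pow_dvd_pow_iff two_ne_zero).1 h1
  have hn : (m : ℤ) * (pr A : ℤ) = b' ^ 2 + 14 * y' ^ 2 := by
    rw [hy', hb'] at hid
    have : N ^ 2 * (m * (pr A : ℤ)) = N ^ 2 * (b' ^ 2 + 14 * y' ^ 2) := by
      linear_combination -hid
    exact mul_left_cancel₀ (pow_ne_zero 2 hN0.ne') this
  obtain ⟨n, hn'⟩ : N ∣ (pr A : ℤ) := by
    rw [← hNdef]
    exact pr_dvd hA hT (fun l hl => dvd_pr (hT hl))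
  have hdif : b * y' - b' * y = -(m * n * d) := by
    have : N * (b * y' - b' * y) = N * (-(m * n * d)) := by
      have e1 : N * (b * y' - b' * y) = b * (N * y') - y * (N * b') := by ring
      rw [e1, ← hy', ← hb']
      have e2 : N * (-(m * n * d)) = -(m * (N * n)) * d := by ring
      rw [e2, ← hn', hq]
      ring
    exact mul_left_cancel₀ hN0.ne' this
  -- `3` does not divide `b'`
  have k3 : ¬ (3 : ℤ) ∣ b' := by
    intro h3
    have e1 : N * b' = b * (c - d) + (15 * b * d + 14 * (y - b) * d) := by rw [← hb']; ring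
    have h4 : (3 : ℤ) ∣ b * (c - d) := by
      have : b * (c - d) = N * b' - (3 * (5 * b * d) + 14 * d * (y - b)) := by
        rw [e1]; ring
      rw [this]
      exact dvd_sub (Dvd.dvd.mul_left h3 _) (dvd_add (Dvd.intro _ rfl) (Dvd.dvd.mul_left hby _))
    rcases Int.prime_three.dvd_or_dvd h4 with h5 | h5
    · exact hb3 h5
    · obtain ⟨k, hk⟩ := h5
      have hc : c = d + 3 * k := by linarith
      rw [hc] at hcd
      have h6 : (3 : ℤ) ∣ N ^ 2 := by
        refine ⟨5 * d ^ 2 + 2 * d * k + 3 * k ^ 2, ?_⟩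
        linear_combination -hcd
      exact hN3 (Int.prime_three.dvd_of_dvd_pow h6)
  have k3' : (3 : ℤ) ∣ y' - b' := by
    have h4 : (3 : ℤ) ∣ N * (y' - b') := by
      have : N * (y' - b') = (y - b) * c - 14 * d * (y - b) - 3 * (5 * b * d) := by
        have e1 : N * (y' - b') = N * y' - N * b' := by ring
        rw [e1, ← hy', ← hb']; ring
      rw [this]
      exact dvd_sub (dvd_sub (Dvd.dvd.mul_right hby _) (Dvd.dvd.mul_left hby _)) (Dvd.intro _ rfl)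
    exact (Int.prime_three.dvd_or_dvd h4).resolve_left hN3
  have hld : ∀ l ∈ T, ¬ (l : ℤ) ∣ d := by
    intro l hl h
    have hlA := hT hl
    have hll := Nat.prime_iff_prime_int.1 (gd hA hlA).1
    have hlN : (l : ℤ) ∣ N := by rw [← hNdef]; exact dvd_pr hl
    have hnot : ¬ ((l : ℤ) ∣ g ∧ (l : ℤ) ∣ f) := by
      rintro ⟨h1, h2⟩
      apply sq_not hA hm hlA
      have h3 : (l : ℤ) ^ 2 ∣ N := by
        rw [hN]
        exact dvd_add (Dvd.dvd.mul_left (pow_dvd_pow_of_dvd h1 2) _)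
          (Dvd.dvd.mul_left (pow_dvd_pow_of_dvd h2 2) _)
      rw [hn']
      exact Dvd.dvd.mul_left (Dvd.dvd.mul_right h3 _) _
    rw [hd] at h
    rcases hll.dvd_or_dvd h with h2 | h2
    · rcases hll.dvd_or_dvd h2 with h3 | h3
      · exact n14 hA hlA (h3.trans (by norm_num))
      · apply hnot
        refine ⟨h3, ?_⟩
        have h4 : (l : ℤ) ∣ β * f ^ 2 := by
          have : β * f ^ 2 = N - α * g ^ 2 := by rw [hN]; ring
          rw [this]
          exact dvd_sub hlN (Dvd.dvd.mul_left (dvd_pow h3 two_ne_zero) _)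
        exact hll.dvd_of_dvd_pow ((hll.dvd_or_dvd h4).resolve_left (hβ l hlA))
    · apply hnot
      refine ⟨?_, h2⟩
      have h4 : (l : ℤ) ∣ α * g ^ 2 := by
        have : α * g ^ 2 = N - β * f ^ 2 := by rw [hN]; ring
        rw [this]
        exact dvd_sub hlN (Dvd.dvd.mul_left (dvd_pow h2 two_ne_zero) _)
      exact hll.dvd_of_dvd_pow ((hll.dvd_or_dvd h4).resolve_left (hα l hlA))
  have kp : ∀ r ∈ T, (r : ℤ) ∣ b * y' + b' * y := by
    intro r hrT
    have hr := hT hrT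
    have hrr := Nat.prime_iff_prime_int.1 (gd hA hr).1
    have h4 : (r : ℤ) ∣ (b * y' + b' * y) * (b * y' - b' * y) := by
      have : (b * y' + b' * y) * (b * y' - b' * y) = (pr A : ℤ) * (m * (y' ^ 2 - y ^ 2)) := by
        linear_combination -(y' ^ 2) * hq + y ^ 2 * hn
      rw [this]
      exact Dvd.dvd.mul_right (dvd_pr hr) _
    rcases hrr.dvd_or_dvd h4 with h5 | h5
    · exact h5
    · exfalso
      rw [hdif, dvd_neg] at h5
      rcases hrr.dvd_or_dvd h5 with h6 | h6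
      · apply sq_not hA hm hr
        obtain ⟨k, hk⟩ := h6
        obtain ⟨l, hl⟩ : (r : ℤ) ∣ N := by rw [← hNdef]; exact dvd_pr hrT
        refine ⟨k * l, ?_⟩
        rw [hn', hl]
        linear_combination (r : ℤ) * l * hk
      · exact hld r hrT h6
  have kr : ∀ r ∈ A, r ∉ T → (r : ℤ) ∣ b * y' - b' * y := by
    intro r hr hrT
    rw [hdif, dvd_neg]
    have hrr := Nat.prime_iff_prime_int.1 (gd hA hr).1
    have h4 : (r : ℤ) ∣ N * n := by rw [← hn']; exact dvd_pr hr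
    rcases hrr.dvd_or_dvd h4 with h5 | h5
    · exfalso
      rw [← hNdef] at h5
      exact hrT (dvd_pr_iff hA hT hr h5)
    · exact Dvd.dvd.mul_right (Dvd.dvd.mul_left h5 _) _
  obtain ⟨e, -, he⟩ := mkSol hm hn (pr_odd hA) k3 k3'
  refine ⟨_, he, fun l hl => ?_, fun l hl hlT => ?_⟩
  · have : b * (e * y') + e * b' * y = e * (b * y' + b' * y) := by ring
    simp only
    rw [this]
    exact Dvd.dvd.mul_left (kp l hl) _
  · have : b * (e * y') - e * b' * y = e * (b * y' - b' * y) := by ring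
    simp only
    rw [this]
    exact Dvd.dvd.mul_left (kr l hl hlT) _

include hq in
/-- the sign at a prime -/
theorem sgn {r : ℤ} (hr : Prime r) (hrm : r ∣ (pr A : ℤ)) {N α β g f : ℤ} (hrN : r ∣ N)
    (hαβ : α * β = 14) (hN : N = α * g ^ 2 + β * f ^ 2) :
    ∃ e : ℤ, (e = 1 ∨ e = -1) ∧ r ∣ α * g * y - b * (e * f) := by
  have : r ∣ (α * g * y - b * (1 * f)) * (α * g * y - b * (-1 * f)) := by
    have e : (α * g * y - b * (1 * f)) * (α * g * y - b * (-1 * f)) =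
        α * y ^ 2 * N - f ^ 2 * m * (pr A : ℤ) := by
      rw [hN]
      linear_combination f ^ 2 * hq - f ^ 2 * y ^ 2 * hαβ
    rw [e]
    exact dvd_sub (Dvd.dvd.mul_left hrN _) (Dvd.dvd.mul_left hrm _)
  rcases hr.dvd_or_dvd this with h | h
  · exact ⟨1, Or.inl rfl, h⟩
  · exact ⟨-1, Or.inr rfl, h⟩

theorem sgn_sq : ∀ e : ℤ, (e = 1 ∨ e = -1) → e ^ 2 = 1 := by
  rintro e (rfl | rfl) <;> norm_num

include hA hm hq in
/-- the flip of one split prime -/
theorem flip1 (hb3 : ¬ (3 : ℤ) ∣ b) (hby : (3 : ℤ) ∣ y - b) {p : ℕ} (hp : p ∈ A) (hSp : Sp p) :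
    ∃ s' ∈ Sol m A, (∀ l ∈ ({p} : Finset ℕ), (l : ℤ) ∣ b * s'.2 + s'.1 * y) ∧
      ∀ l ∈ A, l ∉ ({p} : Finset ℕ) → (l : ℤ) ∣ b * s'.2 - s'.1 * y := by
  have hT : ({p} : Finset ℕ) ⊆ A := by simpa using hp
  have hpr : (pr {p} : ℤ) = p := by
    have : pr {p} = p := prod_singleton _ _
    rw [this]
  have hpp := Nat.prime_iff_prime_int.1 hSp.1
  have key : ∀ α β g f : ℤ, α * β = 14 → (p : ℤ) = α * g ^ 2 + β * f ^ 2 →
      ∃ s' ∈ Sol m A, (∀ l ∈ ({p} : Finset ℕ), (l : ℤ) ∣ b * s'.2 + s'.1 * y) ∧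
      ∀ l ∈ A, l ∉ ({p} : Finset ℕ) → (l : ℤ) ∣ b * s'.2 - s'.1 * y := by
    intro α β g f hαβ h
    obtain ⟨e, he, hd⟩ := sgn hq hpp (dvd_pr hp) (dvd_refl _) hαβ h
    refine flipT hA hm hq hb3 hby hT (α := α) (β := β) (g := g) (f := e * f) hαβ ?_ ?_
    · rw [hpr, h]
      linear_combination -(β * f ^ 2) * sgn_sq e he
    · intro l hl
      rw [mem_singleton] at hl
      rw [hl]
      exact hd
  rcases sp_rep hSp with ⟨g, f, h⟩ | ⟨g, f, h⟩
  · exact key 1 14 g f (by norm_num) (by rw [h]; ring)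
  · exact key 2 7 g f (by norm_num) h

include hA hm hq in
/-- the flip of two inert primes -/
theorem flip2 (hb3 : ¬ (3 : ℤ) ∣ b) (hby : (3 : ℤ) ∣ y - b) {p p' : ℕ} (hp : p ∈ A)
    (hp' : p' ∈ A) (hne : p ≠ p') (hI : In p) (hI' : In p') :
    ∃ s' ∈ Sol m A, (∀ l ∈ ({p, p'} : Finset ℕ), (l : ℤ) ∣ b * s'.2 + s'.1 * y) ∧
      ∀ l ∈ A, l ∉ ({p, p'} : Finset ℕ) → (l : ℤ) ∣ b * s'.2 - s'.1 * y := by
  have hT : ({p, p'} : Finset ℕ) ⊆ A := by
    intro l hl
    rw [mem_insert, mem_singleton] at hl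
    rcases hl with rfl | rfl
    · exact hp
    · exact hp'
  have hpr : (pr {p, p'} : ℤ) = (p : ℤ) * p' := by
    have : pr {p, p'} = p * p' := prod_pair hne
    rw [this]
    push_cast
    ring
  have hpp := Nat.prime_iff_prime_int.1 hI.1
  have hpp' := Nat.prime_iff_prime_int.1 hI'.1
  obtain ⟨⟨g, f, h1⟩, ⟨h, k, h2⟩, -⟩ := nn_rep hI (gd hA hp).2.2.2.1 hI' (gd hA hp').2.2.2.1
  have h1' : (p : ℤ) * p' = 1 * g ^ 2 + 14 * f ^ 2 := by rw [h1]; ring
  obtain ⟨e1, he1, d1⟩ := sgn hq hpp (dvd_pr hp) (Dvd.intro _ rfl) (by norm_num) h1'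
  obtain ⟨e2, he2, d2⟩ := sgn hq hpp' (dvd_pr hp') (Dvd.intro_left _ rfl) (by norm_num) h1'
  obtain ⟨e3, he3, d3⟩ := sgn hq hpp (dvd_pr hp) (Dvd.intro _ rfl) (by norm_num) h2
  obtain ⟨e4, he4, d4⟩ := sgn hq hpp' (dvd_pr hp') (Dvd.intro_left _ rfl) (by norm_num) h2
  have key : ∀ α β g f e e' : ℤ, α * β = 14 → (p : ℤ) * p' = α * g ^ 2 + β * f ^ 2 →
      (e = 1 ∨ e = -1) → (p : ℤ) ∣ α * g * y - b * (e * f) →
      (p' : ℤ) ∣ α * g * y - b * (e * f) →
      ∃ s' ∈ Sol m A, (∀ l ∈ ({p, p'} : Finset ℕ), (l : ℤ) ∣ b * s'.2 + s'.1 * y) ∧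
      ∀ l ∈ A, l ∉ ({p, p'} : Finset ℕ) → (l : ℤ) ∣ b * s'.2 - s'.1 * y := by
    intro α β g f e _ hαβ h he hd hd'
    refine flipT hA hm hq hb3 hby hT (α := α) (β := β) (g := g) (f := e * f) hαβ ?_ ?_
    · rw [hpr, h]
      linear_combination -(β * f ^ 2) * sgn_sq e he
    · intro l hl
      rw [mem_insert, mem_singleton] at hl
      rcases hl with rfl | rfl
      · exact hd
      · exact hd'
  by_cases h12 : e1 = e2
  · exact key 1 14 g f e1 1 (by norm_num) h1' he1 d1 (by rw [h12]; exact d2)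
  by_cases h34 : e3 = e4
  · exact key 2 7 h k e3 1 (by norm_num) h2 he3 d3 (by rw [h34]; exact d4)
  exfalso
  have h12' : e2 = -e1 := by
    rcases he1 with rfl | rfl <;> rcases he2 with rfl | rfl <;> simp_all
  have h34' : e4 = -e3 := by
    rcases he3 with rfl | rfl <;> rcases he4 with rfl | rfl <;> simp_all
  rw [h12'] at d2
  rw [h34'] at d4
  have hyp : ¬ (p : ℤ) ∣ y := nsd hA hm hp hq
  have hyp' : ¬ (p' : ℤ) ∣ y := nsd hA hm hp' hq
  have c1 : (p : ℤ) ∣ g * (e3 * k) - 2 * h * (e1 * f) := by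
    have : (p : ℤ) ∣ y * (g * (e3 * k) - 2 * h * (e1 * f)) := by
      have e : y * (g * (e3 * k) - 2 * h * (e1 * f)) =
          (e3 * k) * (1 * g * y - b * (e1 * f)) - (e1 * f) * (2 * h * y - b * (e3 * k)) := by ring
      rw [e]
      exact dvd_sub (Dvd.dvd.mul_left d1 _) (Dvd.dvd.mul_left d3 _)
    exact (hpp.dvd_or_dvd this).resolve_left hyp
  have c2 : (p' : ℤ) ∣ g * (e3 * k) - 2 * h * (e1 * f) := by
    have : (p' : ℤ) ∣ y * (g * (e3 * k) - 2 * h * (e1 * f)) := by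
      have e : y * (g * (e3 * k) - 2 * h * (e1 * f)) =
          (e3 * k) * (1 * g * y - b * (-e1 * f)) - (e1 * f) * (2 * h * y - b * (-e3 * k)) := by ring
      rw [e]
      exact dvd_sub (Dvd.dvd.mul_left d2 _) (Dvd.dvd.mul_left d4 _)
    exact (hpp'.dvd_or_dvd this).resolve_left hyp'
  have hN : (0 : ℤ) < (p : ℤ) * p' := by
    exact_mod_cast Nat.mul_pos hI.1.pos hI'.1.pos
  have hc : IsCoprime (p : ℤ) (p' : ℤ) :=
    Nat.isCoprime_iff_coprime.2 ((Nat.coprime_primes hI.1 hI'.1).2 hne)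
  refine excl hN (g := g) (f := e1 * f) (h := h) (k := e3 * k) ?_ ?_ (hc.mul_dvd c1 c2)
  · linear_combination h1 - 14 * f ^ 2 * sgn_sq e1 he1
  · linear_combination h2 - 7 * k ^ 2 * sgn_sq e3 he3

end flip

/-- composition of flips -/
theorem comp {r : ℤ} (hr : Prime r) {b y b1 y1 b2 y2 e e' : ℤ} (hy1 : ¬ r ∣ y1)
    (h1 : r ∣ b * y1 - e * (b1 * y)) (h2 : r ∣ b1 * y2 - e' * (b2 * y1)) :
    r ∣ b * y2 - e * e' * (b2 * y) := by
  have h : r ∣ y1 * (b * y2 - e * e' * (b2 * y)) := by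
    have : y1 * (b * y2 - e * e' * (b2 * y)) =
        y2 * (b * y1 - e * (b1 * y)) + (e * y) * (b1 * y2 - e' * (b2 * y1)) := by ring
    rw [this]
    exact dvd_add (Dvd.dvd.mul_left h1 _) (Dvd.dvd.mul_left h2 _)
  exact (hr.dvd_or_dvd h).resolve_left hy1

theorem comp_flip {m : ℕ} {A : Finset ℕ} (hA : Cl A) (hm : m = 9 ∨ m = 3) {s s1 s2 : ℤ × ℤ}
    (hs1 : s1 ∈ Sol m A) {T1 T2 T : Finset ℕ} (hT : T = T1 ∪ T2) (hdis : Disjoint T1 T2)
    (h1 : ∀ l ∈ A, l ∈ T1 → (l : ℤ) ∣ s.1 * s1.2 + s1.1 * s.2)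
    (h1' : ∀ l ∈ A, l ∉ T1 → (l : ℤ) ∣ s.1 * s1.2 - s1.1 * s.2)
    (h2 : ∀ l ∈ A, l ∈ T2 → (l : ℤ) ∣ s1.1 * s2.2 + s2.1 * s1.2)
    (h2' : ∀ l ∈ A, l ∉ T2 → (l : ℤ) ∣ s1.1 * s2.2 - s2.1 * s1.2) :
    (∀ l ∈ A, l ∈ T → (l : ℤ) ∣ s.1 * s2.2 + s2.1 * s.2) ∧
    ∀ l ∈ A, l ∉ T → (l : ℤ) ∣ s.1 * s2.2 - s2.1 * s.2 := by
  have hpl : ∀ l ∈ A, Prime (l : ℤ) := fun l hl => Nat.prime_iff_prime_int.1 (gd hA hl).1
  have hy1 : ∀ l ∈ A, ¬ (l : ℤ) ∣ s1.2 := fun l hl => nsd hA hm hl hs1.1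
  constructor
  · intro l hl hlT
    rw [hT, mem_union] at hlT
    rcases hlT with h | h
    · have hl2 : l ∉ T2 := fun h' => (disjoint_left.1 hdis) h h'
      have := comp (hpl l hl) (b := s.1) (y := s.2) (b1 := s1.1) (y1 := s1.2) (b2 := s2.1)
        (y2 := s2.2) (e := -1) (e' := 1) (hy1 l hl)
        (by have := h1 l hl h; have e : s.1 * s1.2 - -1 * (s1.1 * s.2) =
              s.1 * s1.2 + s1.1 * s.2 := by ring
            rw [e]; exact this)
        (by have := h2' l hl hl2; have e : s1.1 * s2.2 - 1 * (s2.1 * s1.2) =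
              s1.1 * s2.2 - s2.1 * s1.2 := by ring
            rw [e]; exact this)
      have e : s.1 * s2.2 - -1 * 1 * (s2.1 * s.2) = s.1 * s2.2 + s2.1 * s.2 := by ring
      rw [e] at this
      exact this
    · have hl1 : l ∉ T1 := fun h' => (disjoint_left.1 hdis) h' h
      have := comp (hpl l hl) (b := s.1) (y := s.2) (b1 := s1.1) (y1 := s1.2) (b2 := s2.1)
        (y2 := s2.2) (e := 1) (e' := -1) (hy1 l hl)
        (by have := h1' l hl hl1; have e : s.1 * s1.2 - 1 * (s1.1 * s.2) =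
              s.1 * s1.2 - s1.1 * s.2 := by ring
            rw [e]; exact this)
        (by have := h2 l hl h; have e : s1.1 * s2.2 - -1 * (s2.1 * s1.2) =
              s1.1 * s2.2 + s2.1 * s1.2 := by ring
            rw [e]; exact this)
      have e : s.1 * s2.2 - 1 * -1 * (s2.1 * s.2) = s.1 * s2.2 + s2.1 * s.2 := by ring
      rw [e] at this
      exact this
  · intro l hl hlT
    rw [hT, mem_union, not_or] at hlT
    have := comp (hpl l hl) (b := s.1) (y := s.2) (b1 := s1.1) (y1 := s1.2) (b2 := s2.1)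
      (y2 := s2.2) (e := 1) (e' := 1) (hy1 l hl)
      (by have := h1' l hl hlT.1; have e : s.1 * s1.2 - 1 * (s1.1 * s.2) =
            s.1 * s1.2 - s1.1 * s.2 := by ring
          rw [e]; exact this)
      (by have := h2' l hl hlT.2; have e : s1.1 * s2.2 - 1 * (s2.1 * s1.2) =
            s1.1 * s2.2 - s2.1 * s1.2 := by ring
          rw [e]; exact this)
    have e : s.1 * s2.2 - 1 * 1 * (s2.1 * s.2) = s.1 * s2.2 - s2.1 * s.2 := by ring
    rw [e] at this
    exact this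

theorem mA_m {m : ℕ} {A : Finset ℕ} (h : MA m A) : m = 9 ∨ m = 3 := by
  rcases h.2 with h | h
  · exact Or.inl h.1
  · exact Or.inr h.1

theorem flip_aux {m : ℕ} {A : Finset ℕ} (hA : Cl A) (hm : m = 9 ∨ m = 3) :
    ∀ (n : ℕ) (T : Finset ℕ), T.card = n → T ⊆ A → Even (inn T).card → ∀ s ∈ Sol m A,
      ∃ s' ∈ Sol m A, (∀ l ∈ A, l ∈ T → (l : ℤ) ∣ s.1 * s'.2 + s'.1 * s.2) ∧
        ∀ l ∈ A, l ∉ T → (l : ℤ) ∣ s.1 * s'.2 - s'.1 * s.2 := by
  intro n
  induction n using Nat.strong_induction_on with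
  | _ n ih =>
    intro T hcard hT hev s hs
    by_cases hsp : ∃ p ∈ T, p % 8 = 1
    · obtain ⟨p, hp, hp8⟩ := hsp
      have hSp : Sp p := by
        rcases hA.1 p (hT hp) with h | h
        · exact h
        · have := h.2.1
          omega
      have hinn : inn (T.erase p) = inn T := by
        unfold inn
        ext l
        simp only [mem_filter, mem_erase]
        constructor
        · rintro ⟨⟨-, h1⟩, h2⟩
          exact ⟨h1, h2⟩
        · rintro ⟨h1, h2⟩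
          exact ⟨⟨fun h => h2 (h ▸ hp8), h1⟩, h2⟩
      obtain ⟨s1, hs1, a1, a2⟩ := ih (T.erase p).card (by
        rw [← hcard]
        exact card_erase_lt_of_mem hp) (T.erase p) rfl ((erase_subset _ _).trans hT)
        (by rw [hinn]; exact hev) s hs
      obtain ⟨s2, hs2, c1, c2⟩ := flip1 hA hm hs1.1 hs1.2.2.1 hs1.2.2.2 (hT hp) hSp
      refine ⟨s2, hs2, comp_flip hA hm hs1 (T1 := T.erase p) (T2 := {p}) ?_ ?_ a1 a2
        (fun l _ hl => c1 l hl) c2⟩
      · rw [union_comm, ← insert_eq, insert_erase hp]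
      · simp
    · push Not at hsp
      have hinn : inn T = T := by
        unfold inn
        exact filter_true_of_mem hsp
      rw [hinn] at hev
      by_cases h0 : T.card = 0
      · rw [card_eq_zero] at h0
        subst h0
        refine ⟨s, hs, fun l _ hl => absurd hl (notMem_empty _), fun l _ _ => ?_⟩
        rw [sub_self]
        exact dvd_zero _
      · have h2 : 1 < T.card := by
          obtain ⟨k, hk⟩ := hev
          omega
        obtain ⟨p, hp, p', hp', hne⟩ := one_lt_card.1 h2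
        have hIn : ∀ q ∈ T, In q := by
          intro q hq
          rcases hA.1 q (hT hq) with h | h
          · exact absurd h.2.1 (hsp q hq)
          · exact h
        have hp'2 : p' ∈ T.erase p := mem_erase.2 ⟨hne.symm, hp'⟩
        have hc : ((T.erase p).erase p').card + 2 = T.card := by
          rw [card_erase_of_mem hp'2, card_erase_of_mem hp]
          omega
        have hinn' : inn ((T.erase p).erase p') = (T.erase p).erase p' := by
          unfold inn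
          exact filter_true_of_mem (fun q hq => hsp q (mem_of_mem_erase (mem_of_mem_erase hq)))
        obtain ⟨s1, hs1, a1, a2⟩ := ih ((T.erase p).erase p').card (by omega)
          ((T.erase p).erase p') rfl
          (((erase_subset _ _).trans (erase_subset _ _)).trans hT)
          (by rw [hinn']
              obtain ⟨k, hk⟩ := hev
              exact ⟨k - 1, by omega⟩) s hs
        obtain ⟨s2, hs2, c1, c2⟩ := flip2 hA hm hs1.1 hs1.2.2.1 hs1.2.2.2 (hT hp) (hT hp') hne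
          (hIn p hp) (hIn p' hp')
        refine ⟨s2, hs2, comp_flip hA hm hs1 (T1 := (T.erase p).erase p') (T2 := {p, p'}) ?_ ?_
          a1 a2 (fun l _ hl => c1 l hl) c2⟩
        · ext l
          simp only [mem_union, mem_erase, mem_insert, mem_singleton]
          constructor
          · intro hl
            by_cases h1 : l = p
            · exact Or.inr (Or.inl h1)
            · by_cases h3 : l = p'
              · exact Or.inr (Or.inr h3)
              · exact Or.inl ⟨h3, h1, hl⟩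
          · rintro (⟨-, -, h⟩ | h | h)
            · exact h
            · rw [h]; exact hp
            · rw [h]; exact hp'
        · rw [disjoint_left]
          intro l hl hl'
          rw [mem_erase, mem_erase] at hl
          rw [mem_insert, mem_singleton] at hl'
          rcases hl' with h | h
          · exact hl.2.1 h
          · exact hl.1 h

theorem t_FLIP : S_FLIP := by
  intro m A hMA s hs T hT hev
  obtain ⟨s', hs', h1, h2⟩ := flip_aux hMA.1 (mA_m hMA) T.card T rfl hT hev s hs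
  exact ⟨s', hs', fun l hl => h1 l (hT hl) hl, h2⟩

/-- the sign of `y` -/
theorem mkSol2 {A : Finset ℕ} {b y : ℤ} (h : 9 * (pr A : ℤ) = b ^ 2 + 14 * y ^ 2)
    (hodd : pr A % 2 = 1) (h3 : ¬ (3 : ℤ) ∣ b) : (Sol 9 A).Nonempty := by
  have h4 : (3 : ℤ) ∣ (y - b) * (-y - b) := by
    refine ⟨3 * pr A - 5 * y ^ 2, ?_⟩
    linear_combination -h
  rcases Int.prime_three.dvd_or_dvd h4 with h5 | h5
  · obtain ⟨e, -, he⟩ := mkSol (m := 9) (Or.inl rfl) (by push_cast; exact h) hodd h3 h5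
    exact ⟨_, he⟩
  · obtain ⟨e, -, he⟩ := mkSol (m := 9) (A := A) (b := b) (y := -y) (Or.inl rfl)
      (by push_cast; rw [h]; ring) hodd h3 h5
    exact ⟨_, he⟩

theorem t_NE : S_NE := by
  intro A hA _ hc
  obtain ⟨p, p', hne, hpp⟩ := card_eq_two.1 hc
  have hmem : ∀ q ∈ inn A, q ∈ A ∧ In q := by
    intro q hq
    obtain ⟨h1, h2⟩ := mem_filter.1 hq
    refine ⟨h1, (hA.1 q h1).resolve_left fun h => h2 h.2.1⟩
  have hmems : ∀ q ∈ sp A, q ∈ A ∧ Sp q := by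
    intro q hq
    obtain ⟨h1, h2⟩ := mem_filter.1 hq
    refine ⟨h1, (hA.1 q h1).resolve_right fun h => ?_⟩
    have := h.2.1
    omega
  obtain ⟨hpA, hp⟩ := hmem p (by rw [hpp]; simp)
  obtain ⟨hpA', hp'⟩ := hmem p' (by rw [hpp]; simp)
  have hpr : (pr A : ℤ) = pr (sp A) * ((p : ℤ) * p') := by
    have h1 : pr A = pr (sp A) * pr (inn A) :=
      (prod_filter_mul_prod_filter_not A _ _).symm
    rw [h1, hpp]
    have : pr {p, p'} = p * p' := prod_pair hne
    rw [this]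
    push_cast
    ring
  obtain ⟨⟨g, f, h1⟩, -, ⟨X, Y, h3, h4⟩⟩ := nn_rep hp (gd hA hpA).2.2.2.1 hp'
    (gd hA hpA').2.2.2.1
  have hodd := pr_odd hA
  have hN3 : ¬ (3 : ℤ) ∣ (p : ℤ) * p' := by
    intro h
    rcases Int.prime_three.dvd_or_dvd h with h | h
    · have h5 : 3 ∣ p := by exact_mod_cast h
      exact (gd hA hpA).2.2.2.1 ((Nat.prime_dvd_prime_iff_eq Nat.prime_three hp.1).1 h5).symm
    · have h5 : 3 ∣ p' := by exact_mod_cast h
      exact (gd hA hpA').2.2.2.1 ((Nat.prime_dvd_prime_iff_eq Nat.prime_three hp'.1).1 h5).symm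
  have hM3 : ¬ (3 : ℤ) ∣ (pr (sp A) : ℤ) := three_pr hA (filter_subset _ _)
  rcases split_rep (sp A) fun q hq => (hmems q hq).2 with ⟨x, y, h2⟩ | ⟨x, y, h2⟩
  · refine mkSol2 (b := X * x - 14 * Y * y) (y := X * y + Y * x) ?_ hodd ?_
    · rw [hpr, h2]
      linear_combination (x ^ 2 + 14 * y ^ 2) * h3
    · intro h5
      obtain ⟨k, hk⟩ := h5
      have hY3 : ¬ (3 : ℤ) ∣ Y := by
        rintro ⟨l, rfl⟩
        have : (3 : ℤ) ∣ X ^ 2 := ⟨3 * (p * p') - 42 * l ^ 2, by linear_combination -h3⟩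
        exact h4 (Int.prime_three.dvd_of_dvd_pow this)
      by_cases hx : (3 : ℤ) ∣ x
      · by_cases hy : (3 : ℤ) ∣ y
        · apply hM3
          rw [h2]
          exact dvd_add (dvd_pow hx two_ne_zero) (Dvd.dvd.mul_left (dvd_pow hy two_ne_zero) _)
        · have : (3 : ℤ) ∣ Y * y := by
            obtain ⟨l, rfl⟩ := hx
            exact ⟨5 * Y * y + k - X * l, by linarith⟩
          rcases Int.prime_three.dvd_or_dvd this with h | h
          · exact hY3 h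
          · exact hy h
      · by_cases hy : (3 : ℤ) ∣ y
        · have : (3 : ℤ) ∣ X * x := by
            obtain ⟨l, rfl⟩ := hy
            exact ⟨k + 14 * Y * l, by linarith⟩
          rcases Int.prime_three.dvd_or_dvd this with h | h
          · exact h4 h
          · exact hx h
        · apply hM3
          have e1 := mod3_sq hx
          have e2 := mod3_sq hy
          rw [h2]
          omega
  · refine mkSol2 (b := (2 * x - 7 * y) * g - 14 * (x + y) * f)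
      (y := (2 * x - 7 * y) * f + (x + y) * g) ?_ hodd ?_
    · rw [hpr, h1, h2]
      ring
    · intro h5
      obtain ⟨k, hk⟩ := h5
      have hxy : ∀ x y : ℤ, ¬ (3 : ℤ) ∣ 2 * x ^ 2 + 7 * y ^ 2 → ¬ (3 : ℤ) ∣ x + y := by
        intro x y h h'
        apply h
        obtain ⟨l, hl⟩ := h'
        have : y = 3 * l - x := by linarith
        rw [this]
        exact ⟨3 * x ^ 2 - 14 * l * x + 21 * l ^ 2, by ring⟩
      have a1 : ¬ (3 : ℤ) ∣ x + y := hxy x y (by rw [← h2]; exact hM3)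
      have : (3 : ℤ) ∣ (x + y) * (g - f) := by
        refine ⟨(x - 2 * y) * g - 5 * (x + y) * f - k, ?_⟩
        linear_combination -hk
      rcases Int.prime_three.dvd_or_dvd this with h | h
      · exact a1 h
      · apply hN3
        rw [h1]
        obtain ⟨l, hl⟩ := h
        have : g = 3 * l + f := by linarith
        rw [this]
        exact ⟨5 * f ^ 2 + 2 * l * f + 3 * l ^ 2, by ring⟩

end Pool.Agent.Y43.Z17G
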